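import Mathlib

namespace Pool.Agent.Results.MP_95a664_lc.NoMinimalPoset

universe u v

/-- An ideal of sets: nonempty, closed under subsets and under finite unions. -/
def IsIdeal {X : Type u} (I : Set (Set X)) : Prop :=
  I.Nonempty ∧ (∀ A ∈ I, ∀ B : Set X, B ⊆ A → B ∈ I) ∧ (∀ A ∈ I, ∀ B ∈ I, A ∪ B ∈ I)

/-- `Space(I)` is the union of `I`. -/
def Space {X : Type u} (I : Set (Set X)) : Set X := ⋃₀ I

/-- `I⁺`: the subsets of `Space(I)` not in `I`. -/
def Plus {X : Type u} (I : Set (Set X)) : Set (Set X) := {S | S ⊆ Space I ∧ S ∉ I}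

/-- Any two elements have a common upper bound. -/
def IsDirectedSet (Q : Type v) [PartialOrder Q] : Prop := ∀ a b : Q, ∃ c : Q, a ≤ c ∧ b ≤ c

/-- `B` is cofinal: every element lies below some element of `B`. -/
def IsCof {Q : Type v} [PartialOrder Q] (B : Set Q) : Prop := ∀ q : Q, ∃ b ∈ B, q ≤ b

/-- `P ≤_T Q`: there is `f : Q → P` sending every cofinal subset of `Q` onto a cofinal subset
of `P`. -/
def TukeyLE (P : Type u) [PartialOrder P] (Q : Type v) [PartialOrder Q] : Prop :=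
  ∃ f : Q → P, ∀ B : Set Q, IsCof B → IsCof (f '' B)

/-- `Q` is `I`-cohesive: there is a family `(q_i)` indexed by `Space(I)` such that for every
`S ∈ I⁺` the set `{q_i : i ∈ S}` is unbounded. -/
def Cohesive {X : Type u} (I : Set (Set X)) (Q : Type v) [PartialOrder Q] : Prop :=
  ∃ q : Space I → Q, ∀ S ∈ Plus I, ¬ ∃ b : Q, ∀ i : Space I, (i : X) ∈ S → q i ≤ b

/-- The countable sets of reals, ordered by inclusion. -/
abbrev W : Type := {A : Set ℝ // A.Countable}

lemma eventually_above {P : Type u} [PartialOrder P] {Q : Type v} [PartialOrder Q] {f : Q → P}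
    (hf : ∀ B : Set Q, IsCof B → IsCof (f '' B)) (p : P) : ∃ a : Q, ∀ b : Q, a ≤ b → p ≤ f b := by
  by_contra hcon
  push Not at hcon
  have hB : IsCof {b : Q | ¬ p ≤ f b} := by
    intro a
    obtain ⟨b, hab, hb⟩ := hcon a
    exact ⟨b, hb, hab⟩
  obtain ⟨_, ⟨b, hb, rfl⟩, hpb⟩ := hf _ hB p
  exact hb hpb

/-- There is an ideal `I` such that no poset `P` (in any universe) has the property that the
directed sets `Q` with `P ≤_T Q` are exactly the `I`-cohesive ones. -/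
theorem result : ∃ (X : Type) (I : Set (Set X)), IsIdeal I ∧
    ∀ (P : Type u) [PartialOrder P],
      ¬ ∀ (Q : Type) [PartialOrder Q], IsDirectedSet Q → (TukeyLE P Q ↔ Cohesive I Q) := by
  set I : Set (Set (ℕ × W)) := {S | ∃ (n : ℕ) (a : W), ∀ x ∈ S, x.1 ≤ n ∨ x.2 ≤ a} with hI
  have hunion : ∀ a b : W, ∃ c : W, a ≤ c ∧ b ≤ c := fun a b =>
    ⟨⟨a.1 ∪ b.1, a.2.union b.2⟩, Set.subset_union_left, Set.subset_union_right⟩
  have hid : IsIdeal I := by
    refine ⟨⟨∅, 0, ⟨∅, Set.countable_empty⟩, by simp⟩, ?_, ?_⟩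
    · rintro A ⟨n, a, h⟩ B hBA
      exact ⟨n, a, fun x hx => h x (hBA hx)⟩
    · rintro A ⟨n, a, hA⟩ B ⟨m, b, hB⟩
      obtain ⟨c, hac, hbc⟩ := hunion a b
      refine ⟨max n m, c, ?_⟩
      rintro x (hx | hx)
      · rcases hA x hx with h | h
        · exact Or.inl (h.trans (le_max_left _ _))
        · exact Or.inr (h.trans hac)
      · rcases hB x hx with h | h
        · exact Or.inl (h.trans (le_max_right _ _))
        · exact Or.inr (h.trans hbc)
  have hspace : ∀ x, x ∈ Space I := by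
    intro x
    exact ⟨{x}, ⟨x.1, x.2, by intro y hy; rw [Set.mem_singleton_iff] at hy; subst hy; exact Or.inl le_rfl⟩, rfl⟩
  have hplus : (Set.univ : Set (ℕ × W)) ∈ Plus I := by
    refine ⟨fun x _ => hspace x, ?_⟩
    rintro ⟨n, a, h⟩
    obtain ⟨r, hr⟩ : ∃ r : ℝ, r ∉ a.1 := by
      by_contra hcon
      push Not at hcon
      apply Set.not_countable_univ (α := ℝ)
      exact a.2.mono (fun r _ => hcon r)
    rcases h (n + 1, ⟨{r}, Set.countable_singleton r⟩) (Set.mem_univ _) with h1 | h1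
    · simp at h1
    · exact hr (h1 (Set.mem_singleton r))
  refine ⟨ℕ × W, I, hid, ?_⟩
  intro P _ hP
  -- `ℕ` is cohesive
  have hcN : Cohesive I ℕ := by
    refine ⟨fun i => i.1.1, ?_⟩
    rintro S ⟨_, hS⟩ ⟨n, hn⟩
    exact hS ⟨n, ⟨∅, Set.countable_empty⟩, fun x hx => Or.inl (hn ⟨x, hspace x⟩ hx)⟩
  have hcW : Cohesive I W := by
    refine ⟨fun i => i.1.2, ?_⟩
    rintro S ⟨_, hS⟩ ⟨a, ha⟩
    exact hS ⟨0, a, fun x hx => Or.inr (ha ⟨x, hspace x⟩ hx)⟩
  obtain ⟨f, hf⟩ := (hP ℕ (fun a b => ⟨max a b, le_max_left _ _, le_max_right _ _⟩)).mpr hcN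
  obtain ⟨g, hg⟩ := (hP W hunion).mpr hcW
  choose α hα using fun n : ℕ => eventually_above hg (f n)
  set top : W := ⟨⋃ n, (α n).1, Set.countable_iUnion (fun n => (α n).2)⟩ with htop
  have hmax : ∀ p : P, p ≤ g top := by
    intro p
    obtain ⟨n, hn⟩ := eventually_above hf p
    exact (hn n le_rfl).trans (hα n top (Set.subset_iUnion (fun n => (α n).1) n))
  have hcU : Cohesive I Unit := by
    refine (hP Unit (fun a b => ⟨(), le_rfl, le_rfl⟩)).mp ⟨fun _ => g top, ?_⟩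
    intro B hB p
    obtain ⟨b, hb, _⟩ := hB ()
    exact ⟨g top, ⟨b, hb, rfl⟩, hmax p⟩
  obtain ⟨q, hq⟩ := hcU
  exact hq _ hplus ⟨(), fun _ _ => le_rfl⟩

end Pool.Agent.Results.MP_95a664_lc.NoMinimalPoset
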